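import Pool.Agent.Lib_helper65.IVN.Gen

set_option autoImplicit false
set_option linter.unusedVariables false

namespace Pool.Agent.VTT.F6

open Pool.Agent.IVN

noncomputable def f6a_f (al_l al_h b_l b_h : ℕ) : Bool :=
  cstC 2 1 fun l1 h1 =>
  mulC l1 h1 b_l b_h fun l2 h2 =>
  subC 3373259426 3373259427 l2 h2 fun l3 h3 =>
  cstC 3 1 fun l4 h4 =>
  divC l3 h3 l4 h4 fun l5 h5 =>
  trigC l5 h5 fun l6 h6 l6x h6x =>
  mulC l6x h6x l6x h6x fun l7 h7 =>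
  divC al_l al_h l4 h4 fun l8 h8 =>
  hypC l8 h8 fun l9 h9 l9x h9x =>
  mulC l9x h9x l9x h9x fun l10 h10 =>
  addC l7 h7 l10 h10 fun l11 h11 =>
  hypC al_l al_h fun l12 h12 l12x h12x =>
  mulC l12x h12x l12x h12x fun l13 h13 =>
  trigC b_l b_h fun l14 h14 l14x h14x =>
  mulC l14x h14x l14 h14 fun l16 h16 =>
  mulC l1 h1 l16 h16 fun l17 h17 =>
  mulC l17 h17 l17 h17 fun l18 h18 =>
  addC l13 h13 l18 h18 fun l19 h19 =>
  mulC l6 h6 l6 h6 fun l21 h21 =>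
  mulC l9x h9x l9x h9x fun l22 h22 =>
  addC l21 h21 l22 h22 fun l23 h23 =>
  mulC l19 h19 l23 h23 fun l24 h24 =>
  mulC al_l al_h al_l al_h fun l25 h25 =>
  cstC 4 1 fun l26 h26 =>
  mulC b_l b_h b_l b_h fun l27 h27 =>
  mulC l26 h26 l27 h27 fun l28 h28 =>
  addC l25 h25 l28 h28 fun l29 h29 =>
  cstC 121 100 fun l30 h30 =>
  mulC l12 h12 l17 h17 fun l32 h32 =>
  cstC 1 1 fun l33 h33 =>
  mulC l14x h14x l14x h14x fun l34 h34 =>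
  mulC l1 h1 l34 h34 fun l35 h35 =>
  subC l33 h33 l35 h35 fun l36 h36 =>
  mulC l12x h12x l36 h36 fun l37 h37 =>
  mulC l9x h9x l9 h9 fun l39 h39 =>
  mulC l1 h1 l39 h39 fun l40 h40 =>
  mulC l37 h37 l40 h40 fun l41 h41 =>
  cond (Nat.ble (Nat.succ h11) l24) true (cond (Nat.ble (Nat.succ h29) l30) true (cond (Nat.ble (Nat.succ h32) l41) true (false)))

theorem f6a_s {al b : ℝ}
    {X : ℝ} (hX : ((max (Real.pi - (2 * b)) 0) / 3) = X)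
    {Y : ℝ} (hY : (al / 3) = Y)
    {sX : ℝ} (hsX : (Real.sin X) = sX)
    {cX : ℝ} (hcX : (Real.cos X) = cX)
    {sY : ℝ} (hsY : (Real.sinh Y) = sY)
    {cY : ℝ} (hcY : (Real.cosh Y) = cY)
    {sh : ℝ} (hsh : (Real.sinh al) = sh)
    {ch : ℝ} (hch : (Real.cosh al) = ch)
    {sb : ℝ} (hsb : (2 * ((Real.sin b) * (Real.cos b))) = sb)
    {cb : ℝ} (hcb : (max (1 - (2 * ((Real.sin b) * (Real.sin b)))) 0) = cb)
    {N : ℝ} (hN : ((sh * sh) + (sb * sb)) = N)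
    {D : ℝ} (hD : ((sX * sX) + (sY * sY)) = D)
    {T : ℝ} (hT : ((cX * cX) + (sY * sY)) = T)
    {P : ℝ} (hP : (sh * cb) = P)
    {R : ℝ} (hR : (ch * sb) = R)
    {W : ℝ} (hW : (2 * (sY * cY)) = W)
    (k0 : (121 / 100) ≤ ((al * al) + (4 * (b * b))))
    (k1 : (P * W) ≤ R)
    : ∀ al_l al_h b_l b_h : ℕ, f6a_f al_l al_h b_l b_h = true → M al al_l al_h → M b b_l b_h → D < (N * T) := by
  intro al_l al_h b_l b_h hk m_al m_b
  unfold f6a_f at hk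
  have m0 := piM
  obtain ⟨l1, h1, m1, hk⟩ := cstC_s (x := (2 : ℝ)) hk (by norm_num) (by norm_num)
  obtain ⟨l2, h2, m2, hk⟩ := mulC_s hk m1 m_b
  obtain ⟨l3, h3, m3, hk⟩ := subC_s hk m0 m2
  obtain ⟨l4, h4, m4, hk⟩ := cstC_s (x := (3 : ℝ)) hk (by norm_num) (by norm_num)
  obtain ⟨l5, h5, m5, hk⟩ := divC_s hk m3 m4
  rw [hX] at m5
  obtain ⟨l6, h6, l6x, h6x, m6, m6x, hk⟩ := trigC_s hk m5
  rw [hsX] at m6x
  rw [hcX] at m6
  obtain ⟨l7, h7, m7, hk⟩ := mulC_s hk m6x m6x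
  obtain ⟨l8, h8, m8, hk⟩ := divC_s hk m_al m4
  rw [hY] at m8
  obtain ⟨l9, h9, l9x, h9x, m9, m9x, hk⟩ := hypC_s hk m8
  rw [hsY] at m9x
  rw [hcY] at m9
  obtain ⟨l10, h10, m10, hk⟩ := mulC_s hk m9x m9x
  obtain ⟨l11, h11, m11, hk⟩ := addC_s hk m7 m10
  rw [hD] at m11
  obtain ⟨l12, h12, l12x, h12x, m12, m12x, hk⟩ := hypC_s hk m_al
  rw [hsh] at m12x
  rw [hch] at m12
  obtain ⟨l13, h13, m13, hk⟩ := mulC_s hk m12x m12x
  obtain ⟨l14, h14, l14x, h14x, m14, m14x, hk⟩ := trigC_s hk m_b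
  obtain ⟨l16, h16, m16, hk⟩ := mulC_s hk m14x m14
  obtain ⟨l17, h17, m17, hk⟩ := mulC_s hk m1 m16
  rw [hsb] at m17
  obtain ⟨l18, h18, m18, hk⟩ := mulC_s hk m17 m17
  obtain ⟨l19, h19, m19, hk⟩ := addC_s hk m13 m18
  rw [hN] at m19
  obtain ⟨l21, h21, m21, hk⟩ := mulC_s hk m6 m6
  obtain ⟨l22, h22, m22, hk⟩ := mulC_s hk m9x m9x
  obtain ⟨l23, h23, m23, hk⟩ := addC_s hk m21 m22
  rw [hT] at m23
  obtain ⟨l24, h24, m24, hk⟩ := mulC_s hk m19 m23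
  obtain ⟨l25, h25, m25, hk⟩ := mulC_s hk m_al m_al
  obtain ⟨l26, h26, m26, hk⟩ := cstC_s (x := (4 : ℝ)) hk (by norm_num) (by norm_num)
  obtain ⟨l27, h27, m27, hk⟩ := mulC_s hk m_b m_b
  obtain ⟨l28, h28, m28, hk⟩ := mulC_s hk m26 m27
  obtain ⟨l29, h29, m29, hk⟩ := addC_s hk m25 m28
  obtain ⟨l30, h30, m30, hk⟩ := cstC_s (x := (121 / 100 : ℝ)) hk (by norm_num) (by norm_num)
  obtain ⟨l32, h32, m32, hk⟩ := mulC_s hk m12 m17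
  rw [hR] at m32
  obtain ⟨l33, h33, m33, hk⟩ := cstC_s (x := (1 : ℝ)) hk (by norm_num) (by norm_num)
  obtain ⟨l34, h34, m34, hk⟩ := mulC_s hk m14x m14x
  obtain ⟨l35, h35, m35, hk⟩ := mulC_s hk m1 m34
  obtain ⟨l36, h36, m36, hk⟩ := subC_s hk m33 m35
  rw [hcb] at m36
  obtain ⟨l37, h37, m37, hk⟩ := mulC_s hk m12x m36
  rw [hP] at m37
  obtain ⟨l39, h39, m39, hk⟩ := mulC_s hk m9x m9
  obtain ⟨l40, h40, m40, hk⟩ := mulC_s hk m1 m39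
  rw [hW] at m40
  obtain ⟨l41, h41, m41, hk⟩ := mulC_s hk m37 m40
  rcases lt_or hk m11 m24 with hr | hk
  · exact hr
  rcases lt_or hk m29 m30 with hr | hk
  · exact absurd hr (not_lt.2 k0)
  rcases lt_or hk m32 m41 with hr | hk
  · exact absurd hr (not_lt.2 k1)
  exact absurd hk (by simp)

/-- runs with three letters: the norm of the side value -/
theorem f6a {al b : ℝ}
    (al0 : 0 ≤ al) (al1 : al ≤ 3 / 2)
    (b0 : 0 ≤ b) (b1 : b ≤ 393 / 500)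
    {X : ℝ} (hX : ((max (Real.pi - (2 * b)) 0) / 3) = X)
    {Y : ℝ} (hY : (al / 3) = Y)
    {sX : ℝ} (hsX : (Real.sin X) = sX)
    {cX : ℝ} (hcX : (Real.cos X) = cX)
    {sY : ℝ} (hsY : (Real.sinh Y) = sY)
    {cY : ℝ} (hcY : (Real.cosh Y) = cY)
    {sh : ℝ} (hsh : (Real.sinh al) = sh)
    {ch : ℝ} (hch : (Real.cosh al) = ch)
    {sb : ℝ} (hsb : (2 * ((Real.sin b) * (Real.cos b))) = sb)
    {cb : ℝ} (hcb : (max (1 - (2 * ((Real.sin b) * (Real.sin b)))) 0) = cb)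
    {N : ℝ} (hN : ((sh * sh) + (sb * sb)) = N)
    {D : ℝ} (hD : ((sX * sX) + (sY * sY)) = D)
    {T : ℝ} (hT : ((cX * cX) + (sY * sY)) = T)
    {P : ℝ} (hP : (sh * cb) = P)
    {R : ℝ} (hR : (ch * sb) = R)
    {W : ℝ} (hW : (2 * (sY * cY)) = W)
    (k0 : (121 / 100) ≤ ((al * al) + (4 * (b * b))))
    (k1 : (P * W) ≤ R)
    : D < (N * T) :=
  bb2_s (f6a_s hX hY hsX hcX hsY hcY hsh hch hsb hcb hN hD hT hP hR hW k0 k1) 30 (by decide +kernel : bb2 f6a_f 30 0 1610612736 0 843961074 = true) (M_of (by norm_num; linarith) (by norm_num; linarith)) (M_of (by norm_num; linarith) (by norm_num; linarith))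

noncomputable def f6b_f (al_l al_h b_l b_h : ℕ) : Bool :=
  cstC 1 1 fun l0 h0 =>
  cstC 2 1 fun l1 h1 =>
  mulC l1 h1 b_l b_h fun l3 h3 =>
  subC 3373259426 3373259427 l3 h3 fun l4 h4 =>
  cstC 3 1 fun l5 h5 =>
  divC l4 h4 l5 h5 fun l6 h6 =>
  trigC l6 h6 fun l7 h7 l7x h7x =>
  mulC l7x h7x l7x h7x fun l8 h8 =>
  mulC l1 h1 l8 h8 fun l9 h9 =>
  minC l0 h0 l9 h9 fun l10 h10 =>
  hypC al_l al_h fun l11 h11 l11x h11x =>
  mulC l11x h11x l11x h11x fun l12 h12 =>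
  trigC b_l b_h fun l13 h13 l13x h13x =>
  mulC l13x h13x l13 h13 fun l15 h15 =>
  mulC l1 h1 l15 h15 fun l16 h16 =>
  mulC l16 h16 l16 h16 fun l17 h17 =>
  addC l12 h12 l17 h17 fun l18 h18 =>
  mulC al_l al_h al_l al_h fun l19 h19 =>
  cstC 4 1 fun l20 h20 =>
  mulC b_l b_h b_l b_h fun l21 h21 =>
  mulC l20 h20 l21 h21 fun l22 h22 =>
  addC l19 h19 l22 h22 fun l23 h23 =>
  cstC 121 100 fun l24 h24 =>
  cond (Nat.ble (Nat.succ h10) l18) true (cond (Nat.ble (Nat.succ h23) l24) true (false))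

theorem f6b_s {al b : ℝ}
    {X : ℝ} (hX : ((max (Real.pi - (2 * b)) 0) / 3) = X)
    {sX : ℝ} (hsX : (Real.sin X) = sX)
    {sh : ℝ} (hsh : (Real.sinh al) = sh)
    {sb : ℝ} (hsb : (2 * ((Real.sin b) * (Real.cos b))) = sb)
    {N : ℝ} (hN : ((sh * sh) + (sb * sb)) = N)
    (k0 : (121 / 100) ≤ ((al * al) + (4 * (b * b))))
    : ∀ al_l al_h b_l b_h : ℕ, f6b_f al_l al_h b_l b_h = true → M al al_l al_h → M b b_l b_h → (min 1 (2 * (sX * sX))) < N := by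
  intro al_l al_h b_l b_h hk m_al m_b
  unfold f6b_f at hk
  obtain ⟨l0, h0, m0, hk⟩ := cstC_s (x := (1 : ℝ)) hk (by norm_num) (by norm_num)
  obtain ⟨l1, h1, m1, hk⟩ := cstC_s (x := (2 : ℝ)) hk (by norm_num) (by norm_num)
  have m2 := piM
  obtain ⟨l3, h3, m3, hk⟩ := mulC_s hk m1 m_b
  obtain ⟨l4, h4, m4, hk⟩ := subC_s hk m2 m3
  obtain ⟨l5, h5, m5, hk⟩ := cstC_s (x := (3 : ℝ)) hk (by norm_num) (by norm_num)
  obtain ⟨l6, h6, m6, hk⟩ := divC_s hk m4 m5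
  rw [hX] at m6
  obtain ⟨l7, h7, l7x, h7x, m7, m7x, hk⟩ := trigC_s hk m6
  rw [hsX] at m7x
  obtain ⟨l8, h8, m8, hk⟩ := mulC_s hk m7x m7x
  obtain ⟨l9, h9, m9, hk⟩ := mulC_s hk m1 m8
  obtain ⟨l10, h10, m10, hk⟩ := minC_s hk m0 m9
  obtain ⟨l11, h11, l11x, h11x, m11, m11x, hk⟩ := hypC_s hk m_al
  rw [hsh] at m11x
  obtain ⟨l12, h12, m12, hk⟩ := mulC_s hk m11x m11x
  obtain ⟨l13, h13, l13x, h13x, m13, m13x, hk⟩ := trigC_s hk m_b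
  obtain ⟨l15, h15, m15, hk⟩ := mulC_s hk m13x m13
  obtain ⟨l16, h16, m16, hk⟩ := mulC_s hk m1 m15
  rw [hsb] at m16
  obtain ⟨l17, h17, m17, hk⟩ := mulC_s hk m16 m16
  obtain ⟨l18, h18, m18, hk⟩ := addC_s hk m12 m17
  rw [hN] at m18
  obtain ⟨l19, h19, m19, hk⟩ := mulC_s hk m_al m_al
  obtain ⟨l20, h20, m20, hk⟩ := cstC_s (x := (4 : ℝ)) hk (by norm_num) (by norm_num)
  obtain ⟨l21, h21, m21, hk⟩ := mulC_s hk m_b m_b
  obtain ⟨l22, h22, m22, hk⟩ := mulC_s hk m20 m21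
  obtain ⟨l23, h23, m23, hk⟩ := addC_s hk m19 m22
  obtain ⟨l24, h24, m24, hk⟩ := cstC_s (x := (121 / 100 : ℝ)) hk (by norm_num) (by norm_num)
  rcases lt_or hk m10 m18 with hr | hk
  · exact hr
  rcases lt_or hk m23 m24 with hr | hk
  · exact absurd hr (not_lt.2 k0)
  exact absurd hk (by simp)

/-- the case of small abscissa -/
theorem f6b {al b : ℝ}
    (al0 : 0 ≤ al) (al1 : al ≤ 3 / 2)
    (b0 : 0 ≤ b) (b1 : b ≤ 393 / 500)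
    {X : ℝ} (hX : ((max (Real.pi - (2 * b)) 0) / 3) = X)
    {sX : ℝ} (hsX : (Real.sin X) = sX)
    {sh : ℝ} (hsh : (Real.sinh al) = sh)
    {sb : ℝ} (hsb : (2 * ((Real.sin b) * (Real.cos b))) = sb)
    {N : ℝ} (hN : ((sh * sh) + (sb * sb)) = N)
    (k0 : (121 / 100) ≤ ((al * al) + (4 * (b * b))))
    : (min 1 (2 * (sX * sX))) < N :=
  bb2_s (f6b_s hX hsX hsh hsb hN k0) 30 (by decide +kernel : bb2 f6b_f 30 0 1610612736 0 843961074 = true) (M_of (by norm_num; linarith) (by norm_num; linarith)) (M_of (by norm_num; linarith) (by norm_num; linarith))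


end Pool.Agent.VTT.F6
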